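import Pool.Agent.P.MP_9167e9_an.StG

/-! PW: the graph product with the cosets of the lamp sets of the copies is a small cancellation
wall space. -/

noncomputable section
open scoped Classical

namespace Pool.Agent.P.MP_9167e9_an

namespace Pw

section Gen

variable {L : Type} {adj : L → L → Prop} {H : Type} [AddCommGroup H]
  {w : PreWS (GP adj H) (Wall adj H)}

theorem par_mono {T T' : Set L} (h : T ⊆ T') : Par adj H T ≤ Par adj H T' :=
  Subgroup.closure_mono fun _ ⟨f, hf, a, hx⟩ => ⟨f, h hf, a, hx⟩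

theorem par_comm (hg : GPOut adj w) {T : Set L} (hT : Clq adj T) {x y : GP adj H}
    (hx : x ∈ Par adj H T) (hy : y ∈ Par adj H T) : Commute x y := by
  induction hx, hy using Subgroup.closure_induction₂ with
  | mem x y hx hy =>
    obtain ⟨f, hf, a, rfl⟩ := hx
    obtain ⟨f', hf', b, rfl⟩ := hy
    by_cases h : f = f'
    · subst h
      unfold Commute SemiconjBy
      rw [← hg.lmp_add, ← hg.lmp_add, add_comm]
    · exact hg.lmp_comm _ _ _ _ (hT f hf f' hf' h)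
  | one_left x _ => exact Commute.one_left x
  | one_right x _ => exact Commute.one_right x
  | mul_left x y z _ _ _ h1 h2 => exact h1.mul_left h2
  | mul_right y z x _ _ _ h1 h2 => exact h1.mul_right h2
  | inv_left x y _ _ h => exact h.inv_left
  | inv_right x y _ _ h => exact h.inv_right

theorem pc_eq {T : Set L} {q q' : GP adj H} (h : q' * q⁻¹ ∈ Par adj H T) :
    pc adj T q' = pc adj T q := by
  ext x
  change x * q'⁻¹ ∈ Par adj H T ↔ x * q⁻¹ ∈ Par adj H T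
  have e : x * q⁻¹ = x * q'⁻¹ * (q' * q⁻¹) := by group
  rw [e]
  exact (Subgroup.mul_mem_cancel_right _ h).symm

theorem self_mem (T : Set L) (q : GP adj H) : q ∈ pc adj T q := by
  change q * q⁻¹ ∈ Par adj H T
  rw [mul_inv_cancel]
  exact one_mem _

theorem div_mem' {T : Set L} {q x y : GP adj H} (hx : x ∈ pc adj T q) (hy : y ∈ pc adj T q) :
    x * y⁻¹ ∈ Par adj H T := by
  have h := mul_mem (show x * q⁻¹ ∈ Par adj H T from hx) (inv_mem (show y * q⁻¹ ∈ _ from hy))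
  have e : x * q⁻¹ * (y * q⁻¹)⁻¹ = x * y⁻¹ := by group
  rwa [e] at h

/-- Two points of a coset of a finite clique are close. -/
theorem d_le (hg : GPOut adj w) (hp : PreOut w) {T : Set L} (hT : Clq adj T) (hf : T.Finite)
    {x y : GP adj H} (h : y * x⁻¹ ∈ Par adj H T) : w.d x y ≤ T.ncard := by
  let _ : Fintype T := hf.fintype
  obtain ⟨ψ, -, h2, h3⟩ := hg.clique T Subtype.val Subtype.val_injective (by simpa using hT)
  rw [Subtype.range_coe, SetLike.ext_iff] at h3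
  obtain ⟨a, ha⟩ := (h3 _).2 h
  have h4 := h2 (Multiplicative.toAdd a)
  rw [ofAdd_toAdd, ha, ← hp.d_mul _ _ x, one_mul, inv_mul_cancel_right] at h4
  rw [h4, ← Nat.card_coe_set_eq, Nat.card_eq_fintype_card]
  exact hammingNorm_le_card_fintype

theorem ex_wall (a : Wall adj H) : ∃ f z, a = wall adj f z := by
  obtain ⟨f, z⟩ := a
  induction z using Quotient.inductionOn with
  | h z => exact ⟨f, z, rfl⟩

theorem wall_eq {f : L} {z y : GP adj H} (h : y ∈ pc adj (star adj f) z) :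
    wall adj f z = wall adj f y := by
  unfold wall
  congr 1
  exact Quotient.sound (QuotientGroup.rightRel_apply.2 h)

theorem hom_ext {E G : Type} [Fintype E] [DecidableEq E] [Group G] (f g : (E → H) → G)
    (hf : ∀ a b, f (a + b) = f a * f b) (hg : ∀ a b, g (a + b) = g a * g b)
    (h : ∀ e t, f (Pi.single e t) = g (Pi.single e t)) (a : E → H) : f a = g a := by
  have f0 : f 0 = 1 := by simpa using hf 0 0
  have g0 : g 0 = 1 := by simpa using hg 0 0
  have key : ∀ s : Finset E, f (∑ e ∈ s, Pi.single e (a e)) = g (∑ e ∈ s, Pi.single e (a e)) := by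
    intro s
    induction s using Finset.induction_on with
    | empty => simp [f0, g0]
    | insert e s he ih => rw [Finset.sum_insert he, hf, hg, ih, h]
  simpa [Finset.univ_sum_single] using key Finset.univ

end Gen

variable {P : Prm} {F : Set (Cell P)} {w : PreWS (PP F) (Wall (adj F) (ZMod P.h))}

/-- Configurations of lamps on the core edges form a homomorphic image. -/
theorem cwd_hom (hG : Gam1 F) (hg : GPOut (adj F) w) {c : Cell P} (hc : c ∈ F) (δ : Gam F) :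
    (∀ a b, cwd F c δ (a + b) = cwd F c δ a * cwd F c δ b) ∧
    (∀ e t, cwd F c δ (Pi.single e t) = lmp (adj F) (ed F c δ e) t) ∧
    (∀ a, w.d 1 (cwd F c δ a) = hammingNorm a) ∧
    ∀ a, cwd F c δ a ∈ Par (adj F) (ZMod P.h) (EP F c δ) := by
  have hsub : Set.range (ed F c δ) ⊆ EP F c δ := by
    rintro _ ⟨e, rfl⟩
    exact hG.ed_mem c hc δ e
  obtain ⟨ψ, h1, h2, h3⟩ := hg.clique _ (ed F c δ) (hG.ed_inj c hc δ)
    fun f hf f' hf' => hG.clq c hc δ f (hsub hf) f' (hsub hf')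
  have key : ∀ a, cwd F c δ a = ψ (Multiplicative.ofAdd a) := by
    intro a
    unfold cwd prodL
    rw [List.map_map]
    have e1 : ((fun e : Lm F × ZMod P.h => lmp (adj F) e.1 e.2) ∘ fun e => (ed F c δ e, a e)) =
        ψ ∘ fun e => Multiplicative.ofAdd (@Pi.single _ (fun _ => ZMod P.h) _
          (fun a b => Classical.propDecidable (a = b)) e (a e)) := by
      funext e
      exact (h1 e (a e)).symm
    rw [e1, ← List.map_map, ← map_list_prod, Finset.prod_map_toList, ← ofAdd_sum,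
      @Finset.univ_sum_single _ (fun a b => Classical.propDecidable (a = b))]
  refine ⟨fun a b => by rw [key, key, key, ofAdd_add, map_mul], fun e t => ?_, fun a => ?_,
    fun a => ?_⟩
  · rw [key, ← h1]
    exact congrArg (fun i => ψ (Multiplicative.ofAdd (@Pi.single _ (fun _ => ZMod P.h) _ i e t)))
      (Subsingleton.elim _ _)
  · rw [key, h2]
    exact congrArg (fun i => @hammingNorm _ (fun _ => ZMod P.h) _ i _ a) (Subsingleton.elim _ _)
  · rw [key]
    exact par_mono hsub (h3 ▸ ⟨_, rfl⟩)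

theorem WP_le (hG : Gam1 F) (hg : GPOut (adj F) w) {c : Cell P} (hc : c ∈ F) {δ : Gam F}
    {x : PP F} (hx : x ∈ WP F c δ) : x ∈ Par (adj F) (ZMod P.h) (EP F c δ) := by
  obtain ⟨a, -, rfl⟩ := hx
  exact (cwd_hom hG hg hc δ).2.2.2 a

theorem cwd_zero (hG : Gam1 F) (hg : GPOut (adj F) w) {c : Cell P} (hc : c ∈ F) (δ : Gam F) :
    cwd F c δ 0 = 1 := by
  simpa using (cwd_hom hG hg hc δ).1 0 0

theorem WP_sub (hG : Gam1 F) (hg : GPOut (adj F) w) {c : Cell P} (hc : c ∈ F)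
    {p : FreeGroup P.S} (hp : p ∈ c.Pg) (δ : Gam F) : WP F c (mkG F p * δ) ⊆ WP F c δ := by
  rintro _ ⟨a, ha, rfl⟩
  refine ⟨fun e => a (e.1, e.2 + pr p), fun e => ha (e + pr p), ?_⟩
  obtain ⟨h1, h2, -⟩ := cwd_hom hG hg hc (mkG F p * δ)
  obtain ⟨h3, h4, -⟩ := cwd_hom hG hg hc δ
  refine hom_ext (cwd F c (mkG F p * δ)) (fun a => cwd F c δ fun e => a (e.1, e.2 + pr p)) h1
    (fun a b => h3 _ _) (fun e t => ?_) a
  have e1 : ed F c (mkG F p * δ) e = ed F c δ (e.1, e.2 + pr p) := by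
    unfold ed
    rw [← mul_assoc, hG.pos_P c hc p hp]
  have e2 : ∀ x y z : ZMod 2, x + z = y ↔ x = y + z := by decide
  have h5 := h2 e t
  rw [e1, ← h4] at h5
  refine h5.trans (congrArg _ ?_)
  symm
  funext e'
  by_cases h : e' = (e.1, e.2 + pr p)
  · subst h
    have e3 : e.2 + pr p + pr p = e.2 := (e2 _ _ _).2 rfl
    simp [e3]
  · rw [Pi.single_eq_of_ne h, Pi.single_eq_of_ne]
    intro h'
    apply h
    rw [← h']
    exact Prod.ext rfl ((e2 _ _ _).1 rfl)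

theorem WP_P (hG : Gam1 F) (hg : GPOut (adj F) w) {c : Cell P} (hc : c ∈ F)
    {p : FreeGroup P.S} (hp : p ∈ c.Pg) (δ : Gam F) : WP F c (mkG F p * δ) = WP F c δ := by
  refine (WP_sub hG hg hc hp δ).antisymm ?_
  have h := WP_sub hG hg hc (inv_mem hp) (mkG F p * δ)
  rwa [map_inv, inv_mul_cancel_left] at h

theorem WP_same (hG : Gam1 F) (hN : NumAdm F) (hg : GPOut (adj F) w) {c : Cell P} (hc : c ∈ F)
    {δ δ' : Gam F} (h : EP F c δ = EP F c δ') : WP F c δ' = WP F c δ := by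
  rcases hG.ovl c hc c hc δ δ' with ⟨-, p, hp, rfl⟩ | h1
  · exact WP_P hG hg hc hp δ
  · exfalso
    rw [← h, Set.inter_self] at h1
    have hsub : Set.range (ed F c δ) ⊆ EP F c δ := by
      rintro _ ⟨e, rfl⟩
      exact hG.ed_mem c hc δ e
    have h2 := Set.ncard_le_ncard hsub (hG.EP_fin c hc δ).1
    rw [Set.ncard_range_of_injective (hG.ed_inj c hc δ), Nat.card_eq_fintype_card,
      Fintype.card_prod, Fintype.card_prod, Fintype.card_fin, ZMod.card] at h2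
    have h3 := (hN.one c hc).θc_gP
    have h4 := (hN.one c hc).θc_pos
    unfold Cell.gP at h3
    omega

theorem ex_pcl (Q : PC F) : ∃ c hc δ q, Q = pcl F c hc δ q := by
  obtain ⟨⟨c, E, T⟩, hc, δ, q, hE, hT⟩ := Q
  refine ⟨c, hc, δ, q, ?_⟩
  dsimp only at hE hT
  subst hE hT
  rfl

/-- The translate of a cell. -/
def acP (Q : PC F) (g : PP F) : PC F :=
  ⟨(Q.1.1, Q.1.2.1, {x | x * g⁻¹ ∈ Q.1.2.2}), Q.2.1, by
    obtain ⟨δ, q, h1, h2⟩ := Q.2.2
    refine ⟨δ, q * g, h1, ?_⟩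
    ext x
    simp only [h2, pc, Set.mem_ofPred_eq, mul_inv_rev, mul_assoc]⟩

theorem acP_pcl (c : Cell P) (hc : c ∈ F) (δ : Gam F) (q g : PP F) :
    acP (pcl F c hc δ q) g = pcl F c hc δ (q * g) := by
  apply Subtype.ext
  simp only [acP, pcl, pc, Set.mem_ofPred_eq, mul_inv_rev, mul_assoc]

/-- The rotation group of a cell. -/
def KQ (hG : Gam1 F) (hg : GPOut (adj F) w) (Q : PC F) : Subgroup (PP F) where
  carrier := {k | ∀ δ q, Q.1.2.1 = EP F Q.1.1 δ → Q.1.2.2 = pc (adj F) (EP F Q.1.1 δ) q →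
    q * k * q⁻¹ ∈ WP F Q.1.1 δ}
  one_mem' := by
    intro δ q _ _
    exact ⟨0, fun _ => zero_mem _, by rw [cwd_zero hG hg Q.2.1]; simp⟩
  mul_mem' := by
    intro x y hx hy δ q h1 h2
    obtain ⟨a, ha, ea⟩ := hx δ q h1 h2
    obtain ⟨b, hb, eb⟩ := hy δ q h1 h2
    refine ⟨a + b, fun e => add_mem (ha e) (hb e), ?_⟩
    rw [(cwd_hom hG hg Q.2.1 δ).1, ← ea, ← eb]
    group
  inv_mem' := by
    intro x hx δ q h1 h2
    obtain ⟨a, ha, ea⟩ := hx δ q h1 h2
    refine ⟨-a, fun e => neg_mem (ha e), ?_⟩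
    have h := (cwd_hom hG hg Q.2.1 δ).1 a (-a)
    rw [add_neg_cancel, cwd_zero hG hg Q.2.1, ← ea] at h
    rw [← eq_inv_of_mul_eq_one_right h.symm |>.symm]
    group

theorem KQ_iff (hG : Gam1 F) (hN : NumAdm F) (hg : GPOut (adj F) w) (c : Cell P) (hc : c ∈ F)
    (δ : Gam F) (q k : PP F) : k ∈ KQ hG hg (pcl F c hc δ q) ↔ q * k * q⁻¹ ∈ WP F c δ := by
  constructor
  · intro h
    exact h δ q rfl rfl
  · intro h δ' q' h1 h2
    change EP F c δ = EP F c δ' at h1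
    change pc (adj F) (EP F c δ) q = pc (adj F) (EP F c δ') q' at h2
    change _ ∈ WP F c δ'
    have h3 : q' ∈ pc (adj F) (EP F c δ) q := h2 ▸ self_mem _ q'
    have h4 := par_comm hg (hG.clq c hc δ) (show q' * q⁻¹ ∈ _ from h3) (WP_le hG hg hc h)
    have e : q' * k * q'⁻¹ = q' * q⁻¹ * (q * k * q⁻¹) * (q' * q⁻¹)⁻¹ := by group
    rw [WP_same hG hN hg hc h1, e, h4.eq, mul_inv_cancel_right]
    exact h

theorem disp (hA : Adm F) (hG : Gam1 F) (hg : GPOut (adj F) w) (hp : PreOut w) {c : Cell P}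
    (hc : c ∈ F) {δ : Gam F} {q k x : PP F} (hk : q * k * q⁻¹ ∈ WP F c δ) (hk1 : k ≠ 1)
    (hx : x ∈ pc (adj F) (EP F c δ) q) : c.gP ≤ w.d x (x * k) := by
  have h4 := par_comm hg (hG.clq c hc δ) (show x * q⁻¹ ∈ _ from hx) (WP_le hG hg hc hk)
  obtain ⟨a, ha, ea⟩ := hk
  have e : x * k = q * k * q⁻¹ * x := by
    have e1 : x * k = x * q⁻¹ * (q * k * q⁻¹) * q := by group
    rw [e1, h4.eq]
    group
  have h5 := hp.d_mul 1 (cwd F c δ a) x
  rw [one_mul, (cwd_hom hG hg hc δ).2.2.1] at h5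
  rw [e, ea, h5]
  have ha0 : a ≠ 0 := by
    rintro rfl
    rw [cwd_zero hG hg hc] at ea
    apply hk1
    have e1 : k = q⁻¹ * (q * k * q⁻¹) * q := by group
    rw [e1, ea]
    simp
  obtain ⟨⟨v, s⟩, hv⟩ := Function.ne_iff.1 ha0
  have h6 := (hA.ok c hc).code.1 _ (ha s) (Function.ne_iff.2 ⟨v, hv⟩)
  rw [Fintype.card_prod, Fintype.card_fin] at h6
  have h7 : hammingNorm (fun v => a (v, s)) ≤ hammingNorm a := by
    unfold hammingNorm
    refine Finset.card_le_card_of_injOn (fun v => (v, s)) (fun v hv => ?_)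
      fun v _ v' _ h => congrArg Prod.fst h
    simpa using hv
  unfold Cell.gP
  omega

/-- The wall space of the graph product with its cells. -/
def ws (hA : Adm F) (hG : Gam1 F) (hN : NumAdm F)
    (w : PreWS (PP F) (Wall (adj F) (ZMod P.h))) (hg : GPOut (adj F) w) (hp : PreOut w) :
    WS (PP F) (Wall (adj F) (ZMod P.h)) (PC F) where
  toPreWS := w
  cell Q := Q.1.2.2
  π Q x := Classical.epsilon (w.Gate Q.1.2.2 x)
  π_gate Q x := by
    obtain ⟨c, hc, δ, q, rfl⟩ := ex_pcl Q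
    exact Classical.epsilon_spec (hg.gate _ q x)
  ac := acP
  ac_one Q := by
    obtain ⟨c, hc, δ, q, rfl⟩ := ex_pcl Q
    rw [acP_pcl, mul_one]
  ac_mul Q g g' := by
    obtain ⟨c, hc, δ, q, rfl⟩ := ex_pcl Q
    rw [acP_pcl, acP_pcl, acP_pcl, mul_assoc]
  cell_ac Q x g h := by
    change x * g * g⁻¹ ∈ Q.1.2.2
    simpa using h
  K := KQ hG hg
  K_ac Q k g h := by
    obtain ⟨c, hc, δ, q, rfl⟩ := ex_pcl Q
    rw [acP_pcl, KQ_iff hG hN]
    rw [KQ_iff hG hN] at h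
    simpa [mul_assoc] using h
  K_fix Q k h := by
    obtain ⟨c, hc, δ, q, rfl⟩ := ex_pcl Q
    rw [KQ_iff hG hN] at h
    rw [acP_pcl]
    apply Subtype.ext
    simp only [pcl, pc_eq (WP_le hG hg hc h)]
  g Q := Q.1.1.gP
  θ Q := Q.1.1.θc
  δ Q := Q.1.1.sz
  g_ac _ _ := rfl
  θ_ac _ _ := rfl
  δ_ac _ _ := rfl
  θ_pos Q := (hN.one _ Q.2.1).θc_pos
  big Q := (hN.one _ Q.2.1).θc_gP
  disp Q k x hk hk1 hx := by
    obtain ⟨c, hc, δ, q, rfl⟩ := ex_pcl Q
    exact disp hA hG hg hp hc ((KQ_iff hG hN hg c hc δ q k).1 hk) hk1 hx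
  cov Q x y hx hy := by
    obtain ⟨c, hc, δ, q, rfl⟩ := ex_pcl Q
    refine ⟨1, one_mem _, ?_⟩
    rw [mul_one]
    exact (d_le hg hp (hG.clq c hc δ) (hG.EP_fin c hc δ).1 (div_mem' hy hx)).trans
      (hG.EP_fin c hc δ).2
  ax1 Q a x y hn hx hy := by
    obtain ⟨c, hc, δ, q, rfl⟩ := ex_pcl Q
    obtain ⟨f, z, rfl⟩ := ex_wall a
    rw [hg.car_eq] at hx hy
    refine hg.proj _ _ q z x y _ _ _ (hG.clq c hc δ) (hG.EP_fin c hc δ).1 ?_ (hG.dich c hc δ)
      hx hy (Classical.epsilon_spec (hg.gate _ q x)) (Classical.epsilon_spec (hg.gate _ q y))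
    rintro ⟨u, hu, hu'⟩
    refine hG.dich c hc δ f fun hf => hn ?_
    exact (hg.cross _ q _).2 ⟨hf, u, hu, wall_eq hu'⟩
  ax2 Q Q' x y hne hx hy := by
    obtain ⟨c, hc, δ, q, rfl⟩ := ex_pcl Q
    obtain ⟨c', hc', δ', q', rfl⟩ := ex_pcl Q'
    refine hg.proj _ _ q q' x y _ _ _ (hG.clq c hc δ) (hG.EP_fin c hc δ).1 ?_ (hG.dich c hc δ)
      hx hy (Classical.epsilon_spec (hg.gate _ q x)) (Classical.epsilon_spec (hg.gate _ q y))
    rintro ⟨u, hu, hu'⟩
    rcases hG.ovl c hc c' hc' δ δ' with ⟨rfl, p, hp, rfl⟩ | h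
    · refine absurd (Subtype.ext ?_) hne
      rw [hG.EP_P c hc p hp] at hu'
      simp only [pcl, hG.EP_P c hc p hp, ← pc_eq hu, ← pc_eq hu']
    · exact h

end Pw

theorem pPW (h1 : StGP) (h2 : StPre) (h3 : StWS) (h4 : StNum) (h5 : StGam1) : StPW := by
  intro P F hA
  have hG := h5 P F hA
  have hN := h4 P F hA
  have : Fact P.h.Prime := ⟨hA.prime⟩
  obtain ⟨w, hg⟩ := h1 (Lm F) (adj F) (ZMod P.h) hG.adj_symm hG.adj_irr
  have hp := h2 _ _ w
  have ho := h3 _ _ _ (Pw.ws hA hG hN w hg hp)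
  refine ⟨Pw.ws hA hG hN w hg hp, hg, hp, ho, fun _ => rfl, Pw.acP_pcl, Pw.KQ_iff hG hN hg,
    fun _ => rfl, fun _ => rfl, fun _ => rfl, ?_, fun c hc δ => (Pw.cwd_hom hG hg hc δ).1,
    fun c hc δ => (Pw.cwd_hom hG hg hc δ).2.1, fun c hc δ => (Pw.cwd_hom hG hg hc δ).2.2.1,
    fun c hc p hp δ => Pw.WP_P hG hg hc hp δ⟩
  apply le_antisymm
  · refine iSup_le fun Q k hk => ?_
    obtain ⟨c, hc, δ, q, rfl⟩ := Pw.ex_pcl Q
    have h6 : q * k * q⁻¹ ∈ KP F :=
      Subgroup.subset_normalClosure ⟨c, hc, δ, (Pw.KQ_iff hG hN hg c hc δ q k).1 hk⟩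
    have := (KP_normal F).conj_mem _ h6 q⁻¹
    simpa [mul_assoc] using this
  · have := ho.normal
    refine Subgroup.normalClosure_le_normal ?_
    rintro k ⟨c, hc, δ, hk⟩
    have h6 : k ∈ Pw.KQ hG hg (pcl F c hc δ 1) :=
      (Pw.KQ_iff hG hN hg c hc δ 1 k).2 (by simpa using hk)
    exact (le_iSup (Pw.ws hA hG hN w hg hp).K (pcl F c hc δ 1)) h6

end Pool.Agent.P.MP_9167e9_an
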